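import Pool.Agent.Lib.MP_b5021c_nt.Defs

/-!
# MP_b5021c_nt, stage 3, chapter Z: gradings of `O[z, 1/z][L]`
-/

namespace Pool.Agent.B5.Z.H39

open scoped LaurentPolynomial
open Polynomial Pool.Agent.B5

/-- A factor of a monomial of a Laurent polynomial ring over a domain is a monomial. -/
theorem mono_of_mul {A : Type*} [CommRing A] [IsDomain A] {f g : A[T;T⁻¹]} {a : A} (ha : a ≠ 0)
    (h : f * g = LaurentPolynomial.C a) : ∃ (b : A) (m : ℤ),
      f = LaurentPolynomial.C b * LaurentPolynomial.T m := by
  obtain ⟨n, p, hp⟩ := LaurentPolynomial.exists_T_pow f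
  obtain ⟨n', p', hp'⟩ := LaurentPolynomial.exists_T_pow g
  have h1 : Polynomial.toLaurent (p * p') =
      Polynomial.toLaurent (Polynomial.C a * X ^ (n + n') : A[X]) := by
    rw [map_mul, hp, hp', map_mul, Polynomial.toLaurent_C, Polynomial.toLaurent_X_pow]
    calc f * LaurentPolynomial.T n * (g * LaurentPolynomial.T n')
        = (f * g) * (LaurentPolynomial.T n * LaurentPolynomial.T n') := by ring
      _ = _ := by rw [h, ← LaurentPolynomial.T_add]; push_cast; rfl
  have h2 : p * p' = Polynomial.C a * X ^ (n + n') := Polynomial.toLaurent_injective h1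
  have hp0 : p ≠ 0 := by
    rintro rfl
    rw [zero_mul] at h2
    have := congrArg (fun r => r.coeff (n + n')) h2
    simp only [coeff_zero, coeff_C_mul, coeff_X_pow, if_true, mul_one] at this
    exact ha this.symm
  have hp0' : p' ≠ 0 := by
    rintro rfl
    rw [mul_zero] at h2
    have := congrArg (fun r => r.coeff (n + n')) h2
    simp only [coeff_zero, coeff_C_mul, coeff_X_pow, if_true, mul_one] at this
    exact ha this.symm
  have h3 : p.natDegree + p'.natDegree = n + n' := by
    rw [← natDegree_mul hp0 hp0', h2, natDegree_C_mul_X_pow _ _ ha]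
  have h4 : p.natTrailingDegree + p'.natTrailingDegree = n + n' := by
    rw [← natTrailingDegree_mul hp0 hp0', h2]
    rw [natTrailingDegree_mul (by rwa [Ne, Polynomial.C_eq_zero]) (pow_ne_zero _ X_ne_zero),
      natTrailingDegree_C, natTrailingDegree_X_pow, zero_add]
  have h5 := natTrailingDegree_le_natDegree p
  have h6 := natTrailingDegree_le_natDegree p'
  have h7 : p.natTrailingDegree = p.natDegree := by omega
  have h8 : p = Polynomial.C p.leadingCoeff * X ^ p.natDegree := by
    ext i
    rw [coeff_C_mul, coeff_X_pow]
    rcases lt_trichotomy i p.natDegree with hi | hi | hi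
    · rw [coeff_eq_zero_of_lt_natTrailingDegree (by omega), if_neg (by omega), mul_zero]
    · rw [hi, if_pos rfl, mul_one]; rfl
    · rw [coeff_eq_zero_of_natDegree_lt hi, if_neg (by omega), mul_zero]
  refine ⟨p.leadingCoeff, p.natDegree - n, ?_⟩
  have h9 : f = Polynomial.toLaurent p * LaurentPolynomial.T (-n) := by
    rw [hp, mul_assoc, ← LaurentPolynomial.T_add, add_neg_cancel, LaurentPolynomial.T_zero,
      mul_one]
  rw [h9, h8, map_mul, Polynomial.toLaurent_C, Polynomial.toLaurent_X_pow, sub_eq_add_neg,
    LaurentPolynomial.T_add]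
  simp only [leadingCoeff_mul, leadingCoeff_C, leadingCoeff_X_pow, mul_one]
  rw [natDegree_C_mul_X_pow _ _ (leadingCoeff_ne_zero.mpr hp0)]
  ring

section

variable {O : Type} [CommRing O] {L : Type} [AddCommGroup L] (q : ℤ) (k : L →+ ℤ)

/-- The weight of `z` is `q`. -/
noncomputable def wR (L : Type) [AddCommGroup L] : RO O →+* LaurentPolynomial (AO O L) :=
  AddMonoidAlgebra.liftNCRingHom
    ((LaurentPolynomial.C).comp
      ((AddMonoidAlgebra.singleZeroRingHom : RO O →+* AO O L).comp
        (AddMonoidAlgebra.singleZeroRingHom : O →+* RO O)) : O →+* LaurentPolynomial (AO O L))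
    { toFun := fun n => LaurentPolynomial.C
          (AddMonoidAlgebra.single 0 (AddMonoidAlgebra.single n.toAdd 1 : RO O) : AO O L) *
        LaurentPolynomial.T (q * n.toAdd)
      map_one' := by
        rw [toAdd_one, mul_zero, LaurentPolynomial.T_zero, mul_one]
        exact map_one LaurentPolynomial.C
      map_mul' := fun a b => by
        rw [toAdd_mul, mul_add, LaurentPolynomial.T_add]
        have : (AddMonoidAlgebra.single 0 (AddMonoidAlgebra.single (a.toAdd + b.toAdd) 1 : RO O) :
            AO O L) = AddMonoidAlgebra.single 0 (AddMonoidAlgebra.single a.toAdd 1 : RO O) *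
              AddMonoidAlgebra.single 0 (AddMonoidAlgebra.single b.toAdd 1 : RO O) := by
          rw [AddMonoidAlgebra.single_mul_single, AddMonoidAlgebra.single_mul_single, add_zero,
            mul_one]
        rw [this, map_mul]
        ring }
    (fun _ _ => by rw [commute_iff_eq]; exact @mul_comm (LaurentPolynomial (AO O L)) _ _ _)

/-- The coaction: `z^n w^a ↦ z^n w^a T^(q n - k a)`. -/
noncomputable def wt : AO O L →+* LaurentPolynomial (AO O L) :=
  AddMonoidAlgebra.liftNCRingHom (wR q L)
    { toFun := fun a => LaurentPolynomial.C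
          (AddMonoidAlgebra.single a.toAdd 1 : AO O L) *
        LaurentPolynomial.T (-(k a.toAdd))
      map_one' := by
        rw [toAdd_one, map_zero, neg_zero, LaurentPolynomial.T_zero, mul_one]
        exact map_one LaurentPolynomial.C
      map_mul' := fun a b => by
        rw [toAdd_mul, map_add, neg_add, LaurentPolynomial.T_add]
        have : (AddMonoidAlgebra.single (a.toAdd + b.toAdd) 1 : AO O L) =
            AddMonoidAlgebra.single a.toAdd 1 * AddMonoidAlgebra.single b.toAdd 1 := by
          rw [AddMonoidAlgebra.single_mul_single, mul_one]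
        rw [this, map_mul]
        ring }
    (fun _ _ => by rw [commute_iff_eq]; exact @mul_comm (LaurentPolynomial (AO O L)) _ _ _)

theorem wt_single (a : L) (n : ℤ) (c : O) :
    wt q k (AddMonoidAlgebra.single a (AddMonoidAlgebra.single n c : RO O) : AO O L) =
      LaurentPolynomial.C (AddMonoidAlgebra.single a (AddMonoidAlgebra.single n c : RO O) : AO O L) *
        LaurentPolynomial.T (q * n - k a) := by
  have h1 : wR q L (AddMonoidAlgebra.single n c : RO O) = LaurentPolynomial.C
      (AddMonoidAlgebra.single 0 (AddMonoidAlgebra.single n c : RO O) : AO O L) *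
        LaurentPolynomial.T (q * n) := by
    unfold wR
    rw [AddMonoidAlgebra.liftNCRingHom_single]
    simp only [RingHom.comp_apply, MonoidHom.coe_mk, OneHom.coe_mk, toAdd_ofAdd]
    rw [← mul_assoc, ← map_mul]
    congr 2
    show (AddMonoidAlgebra.single 0 (AddMonoidAlgebra.single 0 c : RO O) : AO O L) * _ = _
    rw [AddMonoidAlgebra.single_mul_single, AddMonoidAlgebra.single_mul_single, zero_add, zero_add,
      mul_one]
  unfold wt
  rw [AddMonoidAlgebra.liftNCRingHom_single, h1]
  simp only [MonoidHom.coe_mk, OneHom.coe_mk, toAdd_ofAdd]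
  have h2 : (AddMonoidAlgebra.single a (AddMonoidAlgebra.single n c : RO O) : AO O L) =
      AddMonoidAlgebra.single 0 (AddMonoidAlgebra.single n c : RO O) *
        AddMonoidAlgebra.single a 1 := by
    rw [AddMonoidAlgebra.single_mul_single, zero_add, mul_one]
  rw [h2, map_mul, sub_eq_add_neg, LaurentPolynomial.T_add]
  ring

/-- The part of weight `j`. -/
noncomputable def part (j : ℤ) (V : AO O L) : AO O L := (wt q k V).coeff j

theorem part_add (j : ℤ) (V W : AO O L) : part q k j (V + W) = part q k j V + part q k j W := by
  unfold part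
  rw [map_add]
  rfl

theorem part_zero (j : ℤ) : part q k j (0 : AO O L) = 0 := by
  unfold part
  rw [map_zero]
  rfl

theorem part_single (j : ℤ) (a : L) (n : ℤ) (c : O) :
    part q k j (AddMonoidAlgebra.single a (AddMonoidAlgebra.single n c : RO O) : AO O L) =
      if q * n - k a = j then
        (AddMonoidAlgebra.single a (AddMonoidAlgebra.single n c : RO O) : AO O L) else 0 := by
  unfold part
  rw [wt_single, ← LaurentPolynomial.single_eq_C_mul_T, AddMonoidAlgebra.coeff_single]
  exact Finsupp.single_apply

theorem two_ind {p : AO O L → Prop} (V : AO O L) (h0 : p 0) (hadd : ∀ V W, p V → p W → p (V + W))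
    (hs : ∀ (a : L) (n : ℤ) (c : O),
      p (AddMonoidAlgebra.single a (AddMonoidAlgebra.single n c : RO O))) : p V := by
  induction V using AddMonoidAlgebra.induction_linear with
  | zero => exact h0
  | add f g hf hg => exact hadd f g hf hg
  | single a r =>
    induction r using AddMonoidAlgebra.induction_linear with
    | zero => rw [AddMonoidAlgebra.single_zero]; exact h0
    | add f g hf hg => rw [AddMonoidAlgebra.single_add]; exact hadd _ _ hf hg
    | single n c => exact hs a n c

theorem part_coeff (j : ℤ) (V : AO O L) (a : L) (n : ℤ) :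
    ((part q k j V).coeff a).coeff n = if q * n - k a = j then (V.coeff a).coeff n else 0 := by
  refine two_ind (p := fun V => ((part q k j V).coeff a).coeff n =
    if q * n - k a = j then (V.coeff a).coeff n else 0) V ?_ ?_ ?_
  · rw [part_zero]; simp
  · intro V W hV hW
    rw [part_add]
    simp only [AddMonoidAlgebra.coeff_add, Finsupp.add_apply] at hV hW ⊢
    rw [hV, hW]
    split_ifs <;> simp
  · intro b m c
    rw [part_single]
    have hX : ¬ (b = a ∧ m = n) →
        ((AddMonoidAlgebra.single b (AddMonoidAlgebra.single m c : RO O) : AO O L).coeff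
          a).coeff n = 0 := by
      intro h
      rw [AddMonoidAlgebra.coeff_single]
      by_cases hb : b = a
      · subst hb
        rw [Finsupp.single_eq_same, AddMonoidAlgebra.coeff_single, Finsupp.single_apply,
          if_neg (fun h' => h ⟨rfl, h'⟩)]
      · rw [Finsupp.single_eq_of_ne (Ne.symm hb)]
        rfl
    by_cases hab : b = a ∧ m = n
    · obtain ⟨rfl, rfl⟩ := hab
      by_cases hw : q * m - k b = j
      · rw [if_pos hw, if_pos hw]
      · rw [if_neg hw, if_neg hw]
        rfl
    · have h0 := hX hab
      by_cases hw : q * m - k b = j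
      · rw [if_pos hw, h0, ite_self]
      · rw [if_neg hw, h0, ite_self]
        rfl

theorem part_part (i j : ℤ) (V : AO O L) :
    part q k i (part q k j V) = if i = j then part q k j V else 0 := by
  apply AddMonoidAlgebra.ext
  apply Finsupp.ext
  intro a
  apply AddMonoidAlgebra.ext
  apply Finsupp.ext
  intro n
  rw [part_coeff]
  by_cases hij : i = j
  · subst hij
    rw [if_pos rfl, part_coeff]
    split_ifs <;> rfl
  · rw [if_neg hij, part_coeff]
    by_cases h : q * n - k a = i
    · rw [if_pos h, if_neg (fun h' => hij (h.symm.trans h'))]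
      simp
    · rw [if_neg h]
      simp

theorem eq_of_parts {V W : AO O L} (h : ∀ j, part q k j V = part q k j W) : V = W := by
  apply AddMonoidAlgebra.ext
  apply Finsupp.ext
  intro a
  apply AddMonoidAlgebra.ext
  apply Finsupp.ext
  intro n
  have h1 := part_coeff q k (q * n - k a) V a n
  have h2 := part_coeff q k (q * n - k a) W a n
  rw [if_pos rfl] at h1 h2
  rw [← h1, ← h2, h]

end

section

variable {O : Type} [CommRing O] [IsDomain O] {L : Type} [AddCommGroup L] [Module.Free ℤ L]
  [Module.Finite ℤ L] (q : ℤ) (k : L →+ ℤ)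

/-- If `V` divides its non-zero part of weight `0`, then it is homogeneous. -/
theorem hom_of_dvd {V : AO O L} (h0 : part q k 0 V ≠ 0) (hd : V ∣ part q k 0 V) :
    V = part q k 0 V := by
  obtain ⟨P, hP⟩ := hd
  have h1 : wt q k (part q k 0 V) = LaurentPolynomial.C (part q k 0 V) := by
    apply AddMonoidAlgebra.ext
    apply Finsupp.ext
    intro j
    have h2 : (wt q k (part q k 0 V)).coeff j = part q k j (part q k 0 V) := rfl
    rw [h2, part_part]
    have h3 : (LaurentPolynomial.C (part q k 0 V) : LaurentPolynomial (AO O L)).coeff j =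
        if j = 0 then part q k 0 V else 0 := by
      show (AddMonoidAlgebra.single 0 (part q k 0 V) : LaurentPolynomial (AO O L)).coeff j = _
      rw [AddMonoidAlgebra.coeff_single, Finsupp.single_apply]
      by_cases hj : j = 0
      · rw [if_pos hj.symm, if_pos hj]
      · rw [if_neg (Ne.symm hj), if_neg hj]
    rw [h3]
  have h2 : wt q k V * wt q k P = LaurentPolynomial.C (part q k 0 V) := by
    rw [← map_mul, ← hP, h1]
  obtain ⟨b, m, hb⟩ := mono_of_mul h0 h2
  have h3 : ∀ j, part q k j V = if m = j then b else 0 := by
    intro j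
    show (wt q k V).coeff j = _
    rw [hb, ← LaurentPolynomial.single_eq_C_mul_T, AddMonoidAlgebra.coeff_single]
    exact Finsupp.single_apply
  have hm : m = 0 := by
    by_contra hm
    apply h0
    rw [h3, if_neg hm]
  apply eq_of_parts q k
  intro j
  rw [part_part]
  by_cases hj : j = 0
  · rw [if_pos hj, hj]
  · rw [if_neg hj, h3, if_neg (by omega)]

end

end Pool.Agent.B5.Z.H39
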