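import Pool.Agent.Lib.MP_b5021c_nt.E1.Snt

/-!
# MP_b5021c_nt, stage 3, chapter Z: the vertex of the polyhedron of gauges
-/

namespace Pool.Agent.B5.Z.H39

open Submodule Module
open Pool.Agent.B5 Pool.Agent.B5.E1

section

variable {V : Type*} [AddCommGroup V] [Module ℚ V]

/-- The tight vectors. -/
def Tight (S : Set V) (m : V → ℚ) (l : Dual ℚ V) : Set V := {b | b ∈ S ∧ l b = m b}

theorem vertex_step {S : Set V} (hS : S.Finite) (m : V → ℚ) {l : Dual ℚ V}
    (hl : ∀ b ∈ S, l b ≤ m b) (hne : span ℚ (Tight S m l) ≠ span ℚ S) :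
    ∃ l' : Dual ℚ V, (∀ b ∈ S, l' b ≤ m b) ∧
      span ℚ (Tight S m l) < span ℚ (Tight S m l') := by
  classical
  set U := span ℚ (Tight S m l) with hU
  have hUS : U ≤ span ℚ S := span_mono fun b hb => hb.1
  obtain ⟨b₁, hb₁S, hb₁U⟩ : ∃ b ∈ S, b ∉ U := by
    by_contra hcon
    push Not at hcon
    exact hne (le_antisymm hUS (span_le.mpr hcon))
  obtain ⟨f₀, hf₀, hf₀U⟩ := Submodule.exists_le_ker_of_notMem hb₁U
  -- choose the sign
  obtain ⟨f, hfU, b₂, hb₂S, hb₂⟩ : ∃ f : Dual ℚ V, U ≤ LinearMap.ker f ∧ ∃ b ∈ S, 0 < f b := by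
    rcases lt_or_gt_of_ne hf₀ with h | h
    · refine ⟨-f₀, ?_, b₁, hb₁S, ?_⟩
      · intro x hx
        have := hf₀U hx
        rw [LinearMap.mem_ker] at this ⊢
        rw [LinearMap.neg_apply, this, neg_zero]
      · rw [LinearMap.neg_apply]; linarith
    · exact ⟨f₀, hf₀U, b₁, hb₁S, h⟩
  set F : Set V := {b | b ∈ S ∧ 0 < f b} with hF
  have hFfin : F.Finite := hS.subset fun b hb => hb.1
  obtain ⟨b₀, hb₀, hmin⟩ := Set.exists_min_image F (fun b => (m b - l b) / f b) hFfin
    ⟨b₂, hb₂S, hb₂⟩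
  set t : ℚ := (m b₀ - l b₀) / f b₀ with ht
  have ht0 : 0 ≤ t := div_nonneg (sub_nonneg.mpr (hl b₀ hb₀.1)) hb₀.2.le
  refine ⟨l + t • f, ?_, ?_⟩
  · intro b hb
    rw [LinearMap.add_apply, LinearMap.smul_apply, smul_eq_mul]
    rcases le_or_gt (f b) 0 with h | h
    · have := mul_nonpos_of_nonneg_of_nonpos ht0 h
      linarith [hl b hb]
    · have h1 := hmin b ⟨hb, h⟩
      have h2 : t * f b ≤ m b - l b := (le_div_iff₀ h).mp h1
      linarith
  · have hsub : Tight S m l ⊆ Tight S m (l + t • f) := by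
      rintro b ⟨hbS, hb⟩
      refine ⟨hbS, ?_⟩
      have : f b = 0 := hfU (subset_span ⟨hbS, hb⟩)
      rw [LinearMap.add_apply, LinearMap.smul_apply, this, smul_zero, add_zero, hb]
    refine lt_of_le_of_ne (span_mono hsub) fun heq => ?_
    have h1 : b₀ ∈ Tight S m (l + t • f) := by
      refine ⟨hb₀.1, ?_⟩
      rw [LinearMap.add_apply, LinearMap.smul_apply, smul_eq_mul, ht,
        div_mul_cancel₀ _ hb₀.2.ne']
      ring
    have h2 : b₀ ∈ U := by
      rw [heq]
      exact subset_span h1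
    have h3 : f b₀ = 0 := hfU h2
    exact hb₀.2.ne' h3

/-- The vertex. -/
theorem vertex {S : Set V} (hS : S.Finite) (m : V → ℚ) {l : Dual ℚ V}
    (hl : ∀ b ∈ S, l b ≤ m b) :
    ∃ l' : Dual ℚ V, (∀ b ∈ S, l' b ≤ m b) ∧ span ℚ (Tight S m l') = span ℚ S := by
  have := FiniteDimensional.span_of_finite ℚ hS
  have key : ∀ (n : ℕ) (l : Dual ℚ V), (∀ b ∈ S, l b ≤ m b) →
      finrank ℚ (span ℚ S) - finrank ℚ (span ℚ (Tight S m l)) = n →
      ∃ l' : Dual ℚ V, (∀ b ∈ S, l' b ≤ m b) ∧ span ℚ (Tight S m l') = span ℚ S := by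
    intro n
    induction n using Nat.strong_induction_on with
    | _ n ih =>
      intro l hl hn
      by_cases hne : span ℚ (Tight S m l) = span ℚ S
      · exact ⟨l, hl, hne⟩
      · obtain ⟨l', hl', hlt⟩ := vertex_step hS m hl hne
        have hle : span ℚ (Tight S m l') ≤ span ℚ S := span_mono fun b hb => hb.1
        have hfin' : FiniteDimensional ℚ (span ℚ (Tight S m l')) :=
          FiniteDimensional.span_of_finite ℚ (hS.subset fun b hb => hb.1)
        have h1 := Submodule.finrank_lt_finrank_of_lt hlt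
        have h2 := Submodule.finrank_mono hle
        exact ih _ (by omega) l' hl' rfl
  exact key _ l hl rfl

end

/-- (VTX) a gauge for which the exponents of least `z`-degree have full rank. -/
theorem vtx {L : Type} [AddCommGroup L] [Module.Free ℤ L] [Module.Finite ℤ L] {S : Set L}
    (hS : S.Finite) (m : L → ℤ) (lam : L →+ ℤ) (hlam : ∀ b ∈ S, b ≠ 0 → 0 < lam b)
    (hm : 0 ≤ m 0) :
    ∃ (q : ℕ) (k : L →+ ℤ), 0 < q ∧ (∀ b ∈ S, k b ≤ q * m b) ∧
      rk {b | b ∈ S ∧ k b = q * m b} = rk S := by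
  classical
  -- the rational vector space
  set V := Fin (finrank ℤ L) → ℚ with hV
  let j : L →ₗ[ℤ] V := jL L
  have hj : Function.Injective j := jL_inj
  set S' : Set V := j '' S with hS'
  have hS'fin : S'.Finite := hS.image _
  let m' : V → ℚ := fun v => if h : ∃ b, j b = v then (m h.choose : ℚ) else 0
  have hm' : ∀ b, m' (j b) = m b := by
    intro b
    have h : ∃ b', j b' = j b := ⟨b, rfl⟩
    show (if h : ∃ b', j b' = j b then (m h.choose : ℚ) else 0) = _
    rw [dif_pos h, hj h.choose_spec]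
  -- extension of additive maps to functionals
  let B := Module.finBasis ℤ L
  have hjB : ∀ (b : L) (i : Fin (finrank ℤ L)), j b i = ((B.repr b i : ℤ) : ℚ) := fun b i => rfl
  let ext : (L →+ ℤ) → Dual ℚ V := fun f =>
    ∑ i, ((f (B i) : ℤ) : ℚ) • (LinearMap.proj i : V →ₗ[ℚ] ℚ)
  have hext : ∀ (f : L →+ ℤ) (b : L), ext f (j b) = ((f b : ℤ) : ℚ) := by
    intro f b
    show (∑ i, ((f (B i) : ℤ) : ℚ) • (LinearMap.proj i : V →ₗ[ℚ] ℚ)) (j b) = _
    rw [LinearMap.sum_apply]
    have h1 : b = ∑ i, B.repr b i • B i := (B.sum_repr b).symm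
    have h2 : f b = ∑ i, B.repr b i * f (B i) := by
      conv_lhs => rw [h1]
      rw [map_sum]
      refine Finset.sum_congr rfl fun i _ => ?_
      rw [map_zsmul, smul_eq_mul]
    rw [h2]
    push_cast
    refine Finset.sum_congr rfl fun i _ => ?_
    rw [LinearMap.smul_apply, LinearMap.proj_apply, hjB, smul_eq_mul]
    ring
  -- a first functional
  set t : ℕ := ∑ b ∈ hS.toFinset, (m b).natAbs with ht
  have hfirst : ∀ v ∈ S', (-((t : ℚ)) • ext lam) v ≤ m' v := by
    rintro _ ⟨b, hb, rfl⟩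
    rw [LinearMap.smul_apply, hext, hm', smul_eq_mul]
    by_cases hb0 : b = 0
    · subst hb0
      rw [map_zero]
      simpa using hm
    · have h1 := hlam b hb hb0
      have h2 : (m b).natAbs ≤ t :=
        Finset.single_le_sum (f := fun b => (m b).natAbs) (fun _ _ => Nat.zero_le _)
          (hS.mem_toFinset.mpr hb)
      have h3 : -(m b) ≤ t := by omega
      have h4 : -(m b) ≤ t * lam b := by nlinarith
      have h5 : -((t : ℤ)) * lam b ≤ m b := by linarith
      exact_mod_cast h5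
  obtain ⟨l, hl, hspan⟩ := vertex hS'fin m' hfirst
  -- common denominator
  set q : ℕ := ∏ i, (l (j (B i))).den with hq
  have hq0 : 0 < q := Finset.prod_pos fun i _ => (l (j (B i))).den_pos
  have hint : ∀ i, ∃ n : ℤ, (q : ℚ) * l (j (B i)) = n := by
    intro i
    obtain ⟨d, hd⟩ : (l (j (B i))).den ∣ q := Finset.dvd_prod_of_mem _ (Finset.mem_univ i)
    refine ⟨d * (l (j (B i))).num, ?_⟩
    rw [hd]
    push_cast
    have h1 : ((l (j (B i))).den : ℚ) * l (j (B i)) = (l (j (B i))).num := by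
      rw [mul_comm]
      exact Rat.mul_den_eq_num _
    calc ((l (j (B i))).den : ℚ) * (d : ℚ) * l (j (B i)) =
        d * (((l (j (B i))).den : ℚ) * l (j (B i))) := by ring
      _ = _ := by rw [h1]
  choose n hn using hint
  let k : L →+ ℤ := (B.constr ℤ n).toAddMonoidHom
  have hk : ∀ b : L, ((k b : ℤ) : ℚ) = q * l (j b) := by
    intro b
    have h1 : b = ∑ i, B.repr b i • B i := (B.sum_repr b).symm
    have h2 : k b = ∑ i, B.repr b i * n i := by
      show B.constr ℤ n b = _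
      rw [Basis.constr_apply_fintype]
      refine Finset.sum_congr rfl fun i _ => ?_
      rw [Basis.equivFun_apply, smul_eq_mul]
    have h3 : l (j b) = ∑ i, (B.repr b i : ℚ) * l (j (B i)) := by
      conv_lhs => rw [h1]
      rw [map_sum, map_sum]
      refine Finset.sum_congr rfl fun i _ => ?_
      rw [map_zsmul, map_zsmul, zsmul_eq_mul]
    rw [h2, h3, Finset.mul_sum]
    push_cast
    refine Finset.sum_congr rfl fun i _ => ?_
    rw [← hn i]
    ring
  refine ⟨q, k, hq0, ?_, ?_⟩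
  · intro b hb
    have h1 := hl (j b) ⟨b, hb, rfl⟩
    rw [hm'] at h1
    have h2 : ((k b : ℤ) : ℚ) ≤ q * m b := by
      rw [hk]
      exact mul_le_mul_of_nonneg_left h1 (by positivity)
    exact_mod_cast h2
  · have h1 : Tight S' m' l = j '' {b | b ∈ S ∧ k b = q * m b} := by
      ext v
      constructor
      · rintro ⟨⟨b, hb, rfl⟩, h⟩
        refine ⟨b, ⟨hb, ?_⟩, rfl⟩
        rw [hm'] at h
        have : ((k b : ℤ) : ℚ) = q * m b := by rw [hk, h]
        exact_mod_cast this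
      · rintro ⟨b, ⟨hb, h⟩, rfl⟩
        refine ⟨⟨b, hb, rfl⟩, ?_⟩
        rw [hm']
        have h2 : ((k b : ℤ) : ℚ) = q * m b := by rw [h]; push_cast; rfl
        rw [hk] at h2
        have hq' : (q : ℚ) ≠ 0 := by exact_mod_cast hq0.ne'
        exact mul_left_cancel₀ hq' h2
    rw [← rk_rat j hj, ← rk_rat j hj, ← h1, hspan]

end Pool.Agent.B5.Z.H39
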