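import Pool.Agent.Lib.MP_b5021c_nt.H96.Fce
import Pool.Agent.Lib.MP_b5021c_nt.Z.H39.Grd

/-!
# MP_b5021c_nt, stage 3, chapter Z: a unitary factor of the part of weight zero
-/

namespace Pool.Agent.B5.Z.H39

open Pool.Agent.B5 Pool.Agent.B5.H96
open scoped LaurentPolynomial

section

variable {O : Type} [CommRing O] {L : Type} [AddCommGroup L] (q : ℤ) (k : L →+ ℤ)

/-- An element is the sum of its parts. -/
theorem sum_parts (V : AO O L) : V = ∑ j ∈ (wt q k V).coeff.support, part q k j V := by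
  classical
  apply eq_of_parts q k
  intro i
  have hadd : ∀ (s : Finset ℤ) (f : ℤ → AO O L),
      part q k i (∑ j ∈ s, f j) = ∑ j ∈ s, part q k i (f j) := by
    intro s f
    induction s using Finset.induction_on with
    | empty => simp [part_zero]
    | insert a s ha ih => rw [Finset.sum_insert ha, Finset.sum_insert ha, part_add, ih]
  rw [hadd, Finset.sum_congr rfl (fun j _ => part_part q k i j V)]
  by_cases hi : i ∈ (wt q k V).coeff.support
  · rw [Finset.sum_ite_eq, if_pos hi]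
  · rw [Finset.sum_ite_eq, if_neg hi]
    have h1 : (wt q k V).coeff i = 0 := Finsupp.notMem_support_iff.mp hi
    exact h1

end

section

variable {O : Type} [CommRing O] [Coef O] {L : Type} [AddCommGroup L]

theorem ev_le (z : Circle) (G : AO O L) : ∃ C : ℝ, 0 ≤ C ∧ ∀ u : AddChar L Circle,
    ‖ev z u G‖ ≤ C := by
  refine ⟨∑ a ∈ (spec z G).coeff.support, ‖(spec z G).coeff a‖,
    Finset.sum_nonneg fun _ _ => norm_nonneg _, ?_⟩
  intro u
  unfold ev
  rw [RingHom.comp_apply, evC_apply]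
  refine (norm_sum_le _ _).trans (Finset.sum_le_sum fun a _ => ?_)
  rw [norm_mul, Circle.norm_coe, mul_one]

end

section

variable {O : Type} [CommRing O] [IsDomain O] [IsPrincipalIdealRing O] [Coef O]
  {L : Type} [AddCommGroup L] [Module.Free ℤ L] [Module.Finite ℤ L]

/-- (Z3) -/
theorem z3 (hC1 : C1S) (hC2 : C2S) (hB4 : B4S) (hPr : PrimS) (hSh : SharpS)
    (hSt : StSpecS) (hC0 : Coeff0S) (hSl : SlMulS) {V : AO O L} (q : ℤ) (k : L →+ ℤ)
    (hV : Irreducible V) (hB : Stable (part q k 0 V))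
    (hbd : ∀ j, ∃ C : ℝ, ∀ (z : Circle) (u : AddChar L Circle),
      ‖ev z u (part q k j V)‖ ≤ C * ‖ev z u (part q k 0 V)‖)
    {h : AO O L} (hi : Irreducible h) (hw : Wdep h) (hd : h ∣ part q k 0 V)
    (hd2 : h ∣ sharp (part q k 0 V)) : V = part q k 0 V := by
  set B := part q k 0 V with hBdef
  obtain ⟨H1, hH1⟩ := id hd
  have hd3 : sharp h ∣ B := by
    have := map_dvd (sharp (O := O) (L := L)) hd2
    rw [(hSh O L B).2.1] at this
    exact this
  obtain ⟨H2, hH2⟩ := hd3
  obtain ⟨mu, hmu⟩ := hB.2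
  obtain ⟨b, hb1, -, hb3⟩ := hB4 O L B h H1 hB hH1
  obtain ⟨b', hb1', -, hb3'⟩ := hB4 O L B (sharp h) H2 hB hH2
  have hp1 := ((hb3 mu).2 hmu.1).1
  have hp2 := ((hb3' mu).2 hmu.1).1
  obtain ⟨hV1, hV2⟩ := stable_mul hSt hC0 hSl hb1 hb1' hp1 hp2
  have hU : Unitary ((mon b * h) * (mon b' * sharp h) : AO O L) := by
    have e1 : sharp ((mon b * h) * (mon b' * sharp h) : AO O L) =
        mon (-b + -b') * (h * sharp h) := by
      rw [map_mul, map_mul, map_mul, sharp_mon, sharp_mon, (hSh O L h).2.1, ← mon_mul_mon]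
      ring
    have e2 : ((mon b * h) * (mon b' * sharp h) : AO O L) =
        mon (b + b') * (h * sharp h) := by
      rw [← mon_mul_mon]
      ring
    obtain ⟨v, hv⟩ := mon_isUnit (O := O) ((b + b') + (b + b'))
    refine ⟨v, ?_⟩
    rw [e1, e2, hv, mul_comm _ (mon (b + b' + (b + b'))), ← mul_assoc, mon_mul_mon]
    congr 2
    abel
  have hFull := (hC2 O L _ (mon b * h) (mon b' * sharp h) mu hV1 hU hV2 rfl
    (fun a ha => by
      by_cases h0 : a = 0
      · rw [h0, map_zero]
      · exact (hp1 a ha h0).le) hb1.1).1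
  have hass : Associated h (mon b * h) := by
    obtain ⟨v, hv⟩ := mon_isUnit (O := O) b
    exact ⟨v, by rw [hv, mul_comm]⟩
  have hP : Prim h := (hPr O L h 1).2.1 hi hw
  have hP' : Prim (mon b * h : AO O L) := by
    intro c hc
    exact hP c (hc.trans hass.symm.dvd)
  have hd' : (mon b * h : AO O L) ∣ B := (hass.dvd_iff_dvd_left).mp hd
  obtain ⟨H3, hH3⟩ := id hd'
  -- all parts are divisible by `h`
  have hall : ∀ j, (mon b * h : AO O L) ∣ part q k j V := by
    intro j
    apply hC1 O L _ _ mu hFull hP'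
    convert Set.finite_empty
    ext z
    simp only [Set.mem_ofPred_eq, Set.mem_empty_iff_false, iff_false, not_not]
    obtain ⟨C, hC⟩ := hbd j
    obtain ⟨C', hC'0, hC'⟩ := ev_le z H3
    refine ⟨|C| * C', fun u => ?_⟩
    have h1 := hC z u
    rw [hH3, map_mul, norm_mul] at h1
    have h2 : C * (‖ev z u (mon b * h : AO O L)‖ * ‖ev z u H3‖) ≤
        |C| * C' * ‖ev z u (mon b * h : AO O L)‖ := by
      have h3 := hC' u
      have h4 : C * (‖ev z u (mon b * h : AO O L)‖ * ‖ev z u H3‖) ≤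
          |C| * (‖ev z u (mon b * h : AO O L)‖ * ‖ev z u H3‖) :=
        mul_le_mul_of_nonneg_right (le_abs_self C) (by positivity)
      have h5 : |C| * (‖ev z u (mon b * h : AO O L)‖ * ‖ev z u H3‖) ≤
          |C| * (‖ev z u (mon b * h : AO O L)‖ * C') := by
        gcongr
      linarith
    linarith
  have hdV : (mon b * h : AO O L) ∣ V := by
    rw [sum_parts q k V]
    exact Finset.dvd_sum fun j _ => hall j
  have hVd : V ∣ B := by
    obtain ⟨X, hX⟩ := hdV
    rcases hV.isUnit_or_isUnit hX with h1 | h1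
    · exact absurd ((hass.symm.isUnit h1)) hi.not_isUnit
    · obtain ⟨v, rfl⟩ := h1
      have h2 : Associated (mon b * h : AO O L) V := ⟨v, hX.symm⟩
      exact (h2.dvd_iff_dvd_left).mp hd'
  refine hom_of_dvd q k ?_ hVd
  intro h0
  apply hB.1
  rw [hBdef, h0]
  rfl

end

end Pool.Agent.B5.Z.H39
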