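import Pool.Agent.Lib.MP_b5021c_nt.IfaceEF
import Pool.Agent.Lib.MP_b5021c_nt.Z.H39.Vtx
import Pool.Agent.Lib.MP_b5021c_nt.Z.H39.Z3

/-!
# MP_b5021c_nt, stage 3, chapter EF: rows EF_VTX, EF_FUL, EF_WDV, EF_WHO
-/

namespace Pool.Agent.B5.Z.H39

open Pool.Agent.B5 Pool.Agent.B5.H96
open scoped LaurentPolynomial

/-- (EF.1) -/
theorem vtxs : VtxS := by
  intro L _ _ _ S m lam hlam hm hrk
  obtain ⟨q, l, hq, hl, hr⟩ := vtx (S := (S : Set L)) S.finite_toSet m lam
    (fun b hb => hlam b (Finset.mem_coe.mp hb)) hm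
  refine ⟨q, l, hq, fun a ha => hl a (Finset.mem_coe.mpr ha), ?_⟩
  rw [← hrk, ← hr]
  congr 1

theorem wp_eq {O : Type} [CommRing O] {L : Type} [AddCommGroup L] (q : ℕ) (l : L →+ ℤ) (j : ℤ)
    (D : AO O L) : wp q l j D = part (q : ℤ) l j D := by
  apply AddMonoidAlgebra.ext
  apply Finsupp.ext
  intro a
  apply AddMonoidAlgebra.ext
  apply Finsupp.ext
  intro n
  rw [wp_coeff, part_coeff]

/-- (EF.3a) -/
theorem ful (hC2 : C2S) (hB4 : B4S) (hSh : SharpS) (hSt : StSpecS) (hC0 : Coeff0S)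
    (hSl : SlMulS) : FulS := by
  intro O _ _ _ _ L _ _ _ B h hB hd hd2 mu hmu
  obtain ⟨H1, hH1⟩ := hd
  have hd3 : sharp h ∣ B := by
    have := map_dvd (sharp (O := O) (L := L)) hd2
    rw [(hSh O L B).2.1] at this
    exact this
  obtain ⟨H2, hH2⟩ := hd3
  obtain ⟨b, hb1, -, hb3⟩ := hB4 O L B h H1 hB hH1
  obtain ⟨b', hb1', -, hb3'⟩ := hB4 O L B (sharp h) H2 hB hH2
  have hp1 := ((hb3 mu).2 hmu).1
  have hp2 := ((hb3' mu).2 hmu).1
  obtain ⟨hV1, hV2⟩ := stable_mul hSt hC0 hSl hb1 hb1' hp1 hp2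
  have hU : Unitary ((mon b * h) * (mon b' * sharp h) : AO O L) := by
    have e1 : sharp ((mon b * h) * (mon b' * sharp h) : AO O L) =
        mon (-b + -b') * (h * sharp h) := by
      rw [map_mul, map_mul, map_mul, sharp_mon, sharp_mon, (hSh O L h).2.1, ← mon_mul_mon]
      ring
    have e2 : ((mon b * h) * (mon b' * sharp h) : AO O L) =
        mon (b + b') * (h * sharp h) := by
      rw [← mon_mul_mon]
      ring
    obtain ⟨v, hv⟩ := mon_isUnit (O := O) ((b + b') + (b + b'))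
    refine ⟨v, ?_⟩
    rw [e1, e2, hv, mul_comm _ (mon (b + b' + (b + b'))), ← mul_assoc, mon_mul_mon]
    congr 2
    abel
  exact ⟨b, (hC2 O L _ (mon b * h) (mon b' * sharp h) mu hV1 hU hV2 rfl
    (fun a ha => by
      by_cases h0 : a = 0
      · rw [h0, map_zero]
      · exact (hp1 a ha h0).le) hb1.1).1⟩

/-- (EF.3) -/
theorem wdv (hWst : WstS) (hFul : FulS) (hC1 : C1S) (hPr : PrimS) : WdvS := by
  intro O _ _ _ _ L _ _ _ D q0 q l c G h hD hc hcG hG hi hd hd2 j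
  obtain ⟨hB, hbd⟩ := hWst O L D q0 q l hD
  obtain ⟨mu, hmu⟩ := hB.2
  have hdB : h ∣ wp q l 0 D := by rw [hcG]; exact hd.mul_left _
  have hdB2 : h ∣ sharp (wp q l 0 D) := by rw [hcG, map_mul]; exact hd2.mul_left _
  obtain ⟨b, hFull⟩ := hFul O L _ h hB hdB hdB2 mu hmu.1
  have hw : Wdep h := wdep_of_irr hG hi hd
  have hP : Prim h := (hPr O L h 1).2.1 hi hw
  have hass : Associated h (mon b * h) := by
    obtain ⟨v, hv⟩ := mon_isUnit (O := O) b
    exact ⟨v, by rw [hv, mul_comm]⟩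
  have hP' : Prim (mon b * h : AO O L) := by
    intro c hc
    exact hP c (hc.trans hass.symm.dvd)
  have hd' : (mon b * h : AO O L) ∣ wp q l 0 D := (hass.dvd_iff_dvd_left).mp hdB
  obtain ⟨H3, hH3⟩ := hd'
  have hall : (mon b * h : AO O L) ∣ wp q l j D := by
    apply hC1 O L _ _ mu hFull hP'
    convert Set.finite_empty
    ext z
    simp only [Set.mem_ofPred_eq, Set.mem_empty_iff_false, iff_false, not_not]
    obtain ⟨C, hC⟩ := hbd j
    obtain ⟨C', hC'0, hC'⟩ := ev_le z H3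
    refine ⟨|C| * C', fun u => ?_⟩
    have h1 := hC z u
    rw [hH3, map_mul, norm_mul] at h1
    have h2 : C * (‖ev z u (mon b * h : AO O L)‖ * ‖ev z u H3‖) ≤
        |C| * C' * ‖ev z u (mon b * h : AO O L)‖ := by
      have h3 := hC' u
      have h4 : C * (‖ev z u (mon b * h : AO O L)‖ * ‖ev z u H3‖) ≤
          |C| * (‖ev z u (mon b * h : AO O L)‖ * ‖ev z u H3‖) :=
        mul_le_mul_of_nonneg_right (le_abs_self C) (by positivity)
      have h5 : |C| * (‖ev z u (mon b * h : AO O L)‖ * ‖ev z u H3‖) ≤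
          |C| * (‖ev z u (mon b * h : AO O L)‖ * C') := by
        gcongr
      linarith
    linarith
  exact (hass.dvd_iff_dvd_left).mpr hall

/-- (EF.4) -/
theorem who : WhoS := by
  intro O _ _ _ _ L _ _ _ D q0 q l hD _ hd
  rw [wp_eq] at hd ⊢
  refine hom_of_dvd (q : ℤ) l ?_ hd
  intro h0
  have h1 := part_coeff (q : ℤ) l 0 D 0 0
  rw [h0, mul_zero, l.map_zero, sub_zero, if_pos rfl, hD.c0] at h1
  have h2 : (Polynomial.toLaurent q0 : RO O).coeff 0 = q0.coeff 0 := by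
    rw [LaurentPolynomial.coeff_toLaurent]
    exact Finsupp.mapDomain_apply (Nat.castEmbedding (R := ℤ)).injective q0.toFinsupp.coeff 0
  rw [h2] at h1
  have h3 := hD.zf 0 (by simp)
  apply h3
  rw [← Polynomial.coeff_zero_eq_eval_zero, Polynomial.coeff_map, ← h1]
  simp

end Pool.Agent.B5.Z.H39
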